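import Pool.Agent.H70.Equi.FO

/-!
Equidominating graphs are first-order definable among all finite graphs: one fixed
first-order sentence in the language of graphs recognises them.
-/

namespace Pool.Agent.Results.MP_e5edb0_lc.FirstOrderDefinable

open FirstOrder Pool.Agent.H70.Equi

theorem result : ∃ φ : Language.graph.Sentence, ∀ (V : Type) [Finite V] (G : SimpleGraph V),
    Equidominating G ↔ @Language.Sentence.Realize Language.graph V G.structure φ :=
  ⟨phi, fun _ _ G => equidominating_iff_realize G⟩

end Pool.Agent.Results.MP_e5edb0_lc.FirstOrderDefinable
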