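import Pool.Agent.H70.Equi.InP

/-!
EQUIDOMINATION is in P: the set of adjacency matrices of equidominating graphs is decided in
polynomial time.
-/

namespace Pool.Agent.Results.MP_e5edb0_lc.PolynomialTime

open Pool.Agent.H70.Equi

theorem result : ∃ L : N68a2faeb.DecisionProblem, L ∈ N68a2faeb.P ∧
    ∀ x : List Bool, L x = true ↔
      ∃ (n : ℕ) (G : SimpleGraph (Fin n)), IsAdjMatrix x G ∧ Equidominating G :=
  equidomination_in_P

end Pool.Agent.Results.MP_e5edb0_lc.PolynomialTime
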